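import Pool.Agent.K.MP_5a7e2f_gt.C1

set_option autoImplicit false

namespace Pool.Agent.Results.MP_5a7e2f_gt.AddNull

theorem result :
    (∀ (S : Type) [TopologicalSpace S] [CompactSpace S] [T2Space S] [MeasurableSpace S]
      [BorelSpace S],
      (∀ (A : Set {μ : MeasureTheory.ProbabilityMeasure S //
            (μ : MeasureTheory.Measure S).Regular}) x,
          x ∈ closure A → ∃ B ⊆ A, B.Countable ∧ x ∈ closure B) →
      ∀ μ : MeasureTheory.Measure S, MeasureTheory.IsProbabilityMeasure μ → μ.Regular →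
        ∃ A : ℕ → Finset (Set S),
          (∀ i, ∀ K ∈ A i, IsCompact K) ∧
          (∀ i, ((A i : Set (Set S))).PairwiseDisjoint id) ∧
          ∀ U : Set (Set S), (∀ u ∈ U, IsOpen u) → ⋃₀ U = Set.univ →
            ∀ ε : ENNReal, 0 < ε →
              ∃ i, (∀ K ∈ A i, ∃ u ∈ U, K ⊆ u) ∧
                μ (Set.univ \ ⋃₀ ((A i : Set (Set S)))) < ε) ↔
    ∀ 𝒩 : Set (Set (ℕ → Bool)), Cardinal.mk 𝒩 ≤ Cardinal.aleph 1 →
      (∀ N ∈ 𝒩, MeasureTheory.Measure.infinitePi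
        (fun _ : ℕ => (PMF.uniformOfFintype Bool).toMeasure) N = 0) →
      MeasureTheory.Measure.infinitePi
        (fun _ : ℕ => (PMF.uniformOfFintype Bool).toMeasure) (⋃₀ 𝒩) = 0 :=
  Pool.Agent.P.MP_5a7e2f_gt.Ad.Q1_iff

end Pool.Agent.Results.MP_5a7e2f_gt.AddNull
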