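import Pool.Agent.K.MP_5a7e2f_gt.C0

namespace Pool.Agent.Results.MP_5a7e2f_gt.RosenthalCase

theorem result :
  ∀ (S : Type) [TopologicalSpace S] [CompactSpace S] [T2Space S] [MeasurableSpace S] [BorelSpace S]
    (X : Type) [TopologicalSpace X] [PolishSpace X] (e : S → X → ℝ),
    Topology.IsEmbedding e →
    (∀ s, ∃ f : ℕ → C(X, ℝ), ∀ x,
      Filter.Tendsto (fun n => f n x) Filter.atTop (nhds (e s x))) →
    ∀ μ : MeasureTheory.Measure S, MeasureTheory.IsProbabilityMeasure μ → μ.Regular →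
      ∃ A : ℕ → Finset (Set S),
        (∀ i, ∀ K ∈ A i, IsCompact K) ∧
        (∀ i, ((A i : Set (Set S))).PairwiseDisjoint id) ∧
        ∀ U : Set (Set S), (∀ u ∈ U, IsOpen u) → ⋃₀ U = Set.univ →
          ∀ ε : ENNReal, 0 < ε →
            ∃ i, (∀ K ∈ A i, ∃ u ∈ U, K ⊆ u) ∧
              μ (Set.univ \ ⋃₀ ((A i : Set (Set S)))) < ε :=
  fun S _ _ _ _ _ X _ _ e he hb μ hμ hr => Pool.Agent.P.MP_5a7e2f_gt.main S X e he hb μ hμ hr

end Pool.Agent.Results.MP_5a7e2f_gt.RosenthalCase
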